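import Pool.Agent.MP_fcd29e_an.H11.CS
import Pool.Agent.MP_13e7a1_an.H70.CauA
import Pool.Agent.MP_13e7a1_an.H54.CauB

/-!
The Riemann–Hilbert problem with small data, solved by a Neumann series.
-/

set_option autoImplicit false

open Complex Set Filter Topology Metric
open scoped ContDiff

namespace Pool.Agent.MP_fcd29e_an.H58

open Pool.Agent.MP_fcd29e_an.H11 Pool.Agent.MP_13e7a1_an

noncomputable section

variable {𝔸 : Type} [NormedRing 𝔸] [NormedSpace ℂ 𝔸] [NormedSpace ℝ 𝔸]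
  [IsScalarTower ℝ ℂ 𝔸] [IsScalarTower ℂ 𝔸 𝔸] [SMulCommClass ℂ 𝔸 𝔸]

theorem rh_cr {f : ℂ → 𝔸} {t : ℂ} (hf : DifferentiableAt ℝ f t) (h : dbr f t = 0) :
    DifferentiableAt ℂ f t := by
  have h1 : fderiv ℝ f t I = I • fderiv ℝ f t 1 := by
    have h2 : fderiv ℝ f t 1 = -(I • fderiv ℝ f t I) := eq_neg_of_add_eq_zero_left h
    rw [h2, smul_neg, smul_smul, I_mul_I, neg_smul, neg_neg, one_smul]
  refine (hasFDerivAt_of_restrictScalars ℝ
    (f' := (1 : ℂ →L[ℂ] ℂ).smulRight (fderiv ℝ f t 1)) hf.hasFDerivAt ?_).differentiableAt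
  refine ContinuousLinearMap.ext fun z => ?_
  have hz : z = z.re • (1 : ℂ) + z.im • I := by simp [re_add_im]
  change z • fderiv ℝ f t 1 = fderiv ℝ f t z
  conv_rhs => rw [hz, map_add, map_smul, map_smul, h1]
  conv_lhs => rw [hz, add_smul, smul_assoc, smul_assoc, one_smul]

/-- The product as a real bilinear map. -/
def rhM (𝔸 : Type) [NormedRing 𝔸] [NormedSpace ℂ 𝔸] [NormedSpace ℝ 𝔸] [IsScalarTower ℝ ℂ 𝔸]
    [IsScalarTower ℂ 𝔸 𝔸] [SMulCommClass ℂ 𝔸 𝔸] : 𝔸 →L[ℝ] 𝔸 →L[ℝ] 𝔸 :=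
  (ContinuousLinearMap.mul ℂ 𝔸).bilinearRestrictScalars ℝ

theorem cd_mul {f g : ℂ → 𝔸} (hf : ContDiff ℝ ∞ f) (hg : ContDiff ℝ ∞ g) :
    ContDiff ℝ ∞ fun z => f z * g z := ((rhM 𝔸).contDiff.comp hf).clm_apply hg

theorem dbr_mul {f g : ℂ → 𝔸} {t : ℂ} (hf : DifferentiableAt ℝ f t)
    (hg : DifferentiableAt ℝ g t) : DifferentiableAt ℝ (fun z => f z * g z) t ∧
      dbr (fun z => f z * g z) t = dbr f t * g t + f t * dbr g t := by
  have h : HasFDerivAt (fun z => f z * g z) _ t :=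
    (rhM 𝔸).hasFDerivAt_of_bilinear hf.hasFDerivAt hg.hasFDerivAt
  refine ⟨h.differentiableAt, ?_⟩
  have h1 : ∀ v, fderiv ℝ (fun z => f z * g z) t v =
      f t * fderiv ℝ g t v + fderiv ℝ f t v * g t := fun v => by
    rw [h.fderiv]
    rfl
  unfold dbr
  simp only [h1, smul_add, add_mul, mul_add, smul_mul_assoc, mul_smul_comm]
  abel

theorem dbr_sub {f g : ℂ → 𝔸} {t : ℂ} (hf : DifferentiableAt ℝ f t)
    (hg : DifferentiableAt ℝ g t) : dbr (fun z => f z - g z) t = dbr f t - dbr g t := by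
  unfold dbr
  rw [fderiv_fun_sub hf hg]
  simp only [sub_apply, smul_sub]
  abel

theorem dbr_neg (f : ℂ → 𝔸) (t : ℂ) : dbr (fun z => -f z) t = -dbr f t := by
  unfold dbr
  rw [fderiv_fun_neg]
  simp only [neg_apply, smul_neg]
  abel

/-- Multiplication by `I`. -/
def rhJ (𝔸 : Type) [NormedRing 𝔸] [NormedSpace ℂ 𝔸] [NormedSpace ℝ 𝔸]
    [IsScalarTower ℝ ℂ 𝔸] : 𝔸 →L[ℝ] 𝔸 := ContinuousLinearMap.lsmul ℝ ℂ I

theorem rhJ_sq (v : 𝔸) : rhJ 𝔸 (rhJ 𝔸 v) = -v := by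
  change I • I • v = -v
  rw [smul_smul, I_mul_I, neg_smul, one_smul]

/-- The terms of the Neumann series. -/
def rhT (A : ℂ → 𝔸) : ℕ → ℂ → 𝔸
  | 0 => fun _ => 1
  | k + 1 => fun z => -H82.cT (rhJ 𝔸) (fun t => rhT A k t * A t) z

variable [FiniteDimensional ℝ 𝔸]

theorem cT_facts {g : ℂ → 𝔸} {R : ℝ} (hg : ContDiff ℝ ∞ g) (h0 : ∀ t, R ≤ ‖t‖ → g t = 0) :
    ContDiff ℝ ∞ (H82.cT (rhJ 𝔸) g) ∧ (∀ t, dbr (H82.cT (rhJ 𝔸) g) t = g t) ∧
      Tendsto (H82.cT (rhJ 𝔸) g) (cocompact ℂ) (𝓝 0) :=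
  have hc := H70.supp_of_zero h0
  ⟨(H70.cauA.smooth 𝔸 _ g hg hc).1, (H54.cauB H70.cauA).solve 𝔸 _ rhJ_sq g hg hc,
    H70.cauA.decay 𝔸 _ g hg.continuous hc⟩

theorem rhT_smooth {A : ℂ → 𝔸} {R : ℝ} (hA : ContDiff ℝ ∞ A) (h0 : ∀ t, R ≤ ‖t‖ → A t = 0)
    (k : ℕ) : ContDiff ℝ ∞ (rhT A k) := by
  induction k with
  | zero => exact contDiff_const
  | succ k ih => exact (cT_facts (cd_mul ih hA) fun t ht => by rw [h0 t ht, mul_zero]).1.neg

theorem rh_gen (R : ℝ) : ∃ a₀ C : ℝ, 0 < a₀ ∧ 0 ≤ C ∧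
    ∀ (A : ℂ → 𝔸) (a : ℝ), ContDiff ℝ ∞ A → (∀ t, R ≤ ‖t‖ → A t = 0) → (∀ t, ‖A t‖ ≤ a) →
    a ≤ a₀ → ∃ F : ℂ → 𝔸, Continuous F ∧ (∀ t, ‖F t - 1‖ ≤ C * a) ∧
      Tendsto F (cocompact ℂ) (𝓝 1) ∧ ∀ (O : Set ℂ) (G : ℂ → 𝔸), IsOpen O → ContDiffOn ℝ ∞ G O →
      (∀ t ∈ O, dbr G t = A t * G t) → DifferentiableOn ℂ (fun t => F t * G t) O := by
  have : CompleteSpace 𝔸 := FiniteDimensional.complete ℝ 𝔸
  obtain ⟨C, hC, hb⟩ := H70.cauA.bound 𝔸 (rhJ 𝔸) R
  refine ⟨1 / (2 * (C + 1)), 2 * C, by positivity, by positivity, fun A a hA h0 ha ha0 => ?_⟩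
  have ha' : 0 ≤ a := (norm_nonneg _).trans (ha 0)
  have hq : C * a ≤ 1 / 2 := by
    rw [le_div_iff₀ (by positivity)] at ha0
    nlinarith
  have sm := rhT_smooth hA h0
  have z0 : ∀ k t, R ≤ ‖t‖ → rhT A k t * A t = 0 := fun k t ht => by rw [h0 t ht, mul_zero]
  have fa := fun k => cT_facts (cd_mul (sm k) hA) (z0 k)
  have bd : ∀ k t, ‖rhT A k t * A t‖ ≤ a * (1 / 2) ^ k := by
    intro k
    induction k with
    | zero => intro t; simpa [rhT] using ha t
    | succ k ih =>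
      intro t
      have h1 := (hb _ _ (cd_mul (sm k) hA).continuous (z0 k) ih).2 t
      rw [← norm_neg] at h1
      calc ‖rhT A (k + 1) t * A t‖ ≤ C * (a * (1 / 2) ^ k) * a :=
            (norm_mul_le _ _).trans (mul_le_mul h1 (ha t) (norm_nonneg _) (by positivity))
        _ = C * a * (a * (1 / 2) ^ k) := by ring
        _ ≤ 1 / 2 * (a * (1 / 2) ^ k) := mul_le_mul_of_nonneg_right hq (by positivity)
        _ = a * (1 / 2) ^ (k + 1) := by ring
  have bT : ∀ k t, ‖rhT A (k + 1) t‖ ≤ C * a * (1 / 2) ^ k := fun k t => by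
    have h1 := (hb _ _ (cd_mul (sm k) hA).continuous (z0 k) (bd k)).2 t
    rw [← norm_neg, ← mul_assoc] at h1
    exact h1
  have geo : ∀ c : ℝ, Summable fun k : ℕ => c * (1 / 2 : ℝ) ^ k := fun c =>
    summable_geometric_two.mul_left c
  refine ⟨fun t => 1 + ∑' k, rhT A (k + 1) t, continuous_const.add
    (continuous_tsum (fun k => (sm (k + 1)).continuous) (geo _) bT), fun t => ?_, ?_, ?_⟩
  · rw [add_sub_cancel_left]
    refine (tsum_of_norm_bounded (geo (C * a)).hasSum fun k => bT k t).trans (le_of_eq ?_)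
    rw [tsum_mul_left, tsum_geometric_two]
    ring
  · have h1 := tendsto_tsum_of_dominated_convergence (𝓕 := cocompact ℂ)
      (f := fun t k => rhT A (k + 1) t) (g := fun _ => (0 : 𝔸)) (geo (C * a))
      (fun k => by simpa [rhT] using (fa k).2.2.neg) (Eventually.of_forall fun t k => bT k t)
    simpa using h1.const_add 1
  intro O G hO hG hd t₀ ht₀
  obtain ⟨ε, hε, hsub⟩ := Metric.nhds_basis_closedBall.mem_iff.1 (hO.mem_nhds ht₀)
  let χ : ContDiffBump t₀ := ⟨ε / 2, ε, by positivity, by linarith⟩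
  let G' : ℂ → 𝔸 := fun t => χ t • G t
  have hG' : ContDiff ℝ ∞ G' := by
    rw [contDiff_iff_contDiffAt]
    intro t
    by_cases ht : t ∈ O
    · exact χ.contDiff.contDiffAt.smul (hG.contDiffAt (hO.mem_nhds ht))
    · have h1 : t ∉ tsupport χ := fun h => ht (hsub (by rwa [χ.tsupport_eq] at h))
      refine (contDiffAt_const (c := (0 : 𝔸))).congr_of_eventuallyEq ?_
      filter_upwards [notMem_tsupport_iff_eventuallyEq.1 h1] with s hs
      simp only [G', hs, Pi.zero_apply, zero_smul]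
  obtain ⟨B, hB⟩ := hG'.continuous.bounded_above_of_compact_support
    (χ.hasCompactSupport.smul_right (f' := G))
  have hB0 : 0 ≤ B := (norm_nonneg _).trans (hB 0)
  have eq : ∀ t ∈ ball t₀ (ε / 2), G' t = G t := fun t ht => by
    simp only [G', χ.one_of_mem_closedBall (ball_subset_closedBall ht), one_smul]
  have dG : ∀ t ∈ ball t₀ (ε / 2), dbr G' t = A t * G' t := fun t ht => by
    have h1 : G' =ᶠ[𝓝 t] G := eventually_of_mem (isOpen_ball.mem_nhds ht) eq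
    rw [eq t ht, ← hd t (hsub (ball_subset_closedBall (ball_subset_ball (by linarith) ht)))]
    unfold dbr
    rw [h1.fderiv_eq]
  let E : ℕ → ℂ → 𝔸 := fun k => H82.cT (rhJ 𝔸) fun t => rhT A k t * A t * G' t
  have z1 : ∀ k t, R ≤ ‖t‖ → rhT A k t * A t * G' t = 0 := fun k t ht => by
    rw [z0 k t ht, zero_mul]
  have fE := fun k => cT_facts (cd_mul (cd_mul (sm k) hA) hG') (z1 k)
  have bE : ∀ k t, ‖E k t‖ ≤ C * a * B * (1 / 2) ^ k := fun k t => by
    refine ((hb _ (a * (1 / 2) ^ k * B) (cd_mul (cd_mul (sm k) hA) hG').continuous (z1 k) fun s =>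
      (norm_mul_le _ _).trans (mul_le_mul (bd k s) (hB s) (norm_nonneg _)
        (by positivity))).2 t).trans (le_of_eq (by ring))
  have dT : ∀ k t, DifferentiableAt ℝ (rhT A k) t := fun k t =>
    (sm k).differentiable (by simp) t
  have dE : ∀ k t, DifferentiableAt ℝ (E k) t := fun k t => (fE k).1.differentiable (by simp) t
  have dG' : ∀ t, DifferentiableAt ℝ G' t := fun t => hG'.differentiable (by simp) t
  have u0 : DifferentiableOn ℂ (fun t => G' t - E 0 t) (ball t₀ (ε / 2)) := fun t ht => by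
    refine (rh_cr ((dG' t).sub (dE 0 t)) ?_).differentiableWithinAt
    refine (dbr_sub (dG' t) (dE 0 t)).trans ?_
    rw [dG t ht, (fE 0).2.1 t]
    simp [rhT]
  have u1 : ∀ k, DifferentiableOn ℂ (fun t => rhT A (k + 1) t * G' t - (E (k + 1) t - E k t))
      (ball t₀ (ε / 2)) := fun k t ht => by
    have h1 := (dbr_mul (dT (k + 1) t) (dG' t)).1
    have h2 := (dE (k + 1) t).sub (dE k t)
    refine (rh_cr (h1.sub h2) ?_).differentiableWithinAt
    refine (dbr_sub h1 h2).trans ?_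
    have h3 : dbr (rhT A (k + 1)) t = -(rhT A k t * A t) :=
      (dbr_neg _ t).trans (congrArg Neg.neg ((fa k).2.1 t))
    have h4 := (dbr_mul (dT (k + 1) t) (dG' t)).2
    have h5 := dbr_sub (dE (k + 1) t) (dE k t)
    rw [h3, dG t ht] at h4
    rw [(fE (k + 1)).2.1 t, (fE k).2.1 t] at h5
    refine (congrArg₂ (· - ·) h4 h5).trans ?_
    rw [← mul_assoc, neg_mul]
    abel
  have u2 := differentiableOn_tsum_of_summable_norm (geo (3 * (C * a * B))) u1 isOpen_ball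
    fun k t _ => by
      have h1 : ‖rhT A (k + 1) t * G' t‖ ≤ C * a * (1 / 2) ^ k * B :=
        (norm_mul_le _ _).trans (mul_le_mul (bT k t) (hB t) (norm_nonneg _) (by positivity))
      have h2 := bE (k + 1) t
      have h3 := bE k t
      have h4 : 0 ≤ C * a * B * (1 / 2) ^ k := by positivity
      have h5 := (norm_sub_le (rhT A (k + 1) t * G' t) (E (k + 1) t - E k t)).trans
        (add_le_add le_rfl (norm_sub_le _ _))
      rw [pow_succ] at h2
      linarith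
  refine (((u0.add u2).congr fun t ht => ?_).differentiableAt
    (ball_mem_nhds t₀ (half_pos hε))).differentiableWithinAt
  have s1 : Summable fun k => rhT A (k + 1) t := .of_norm_bounded (geo _) fun k => bT k t
  have s2 : Summable fun k => E k t := .of_norm_bounded (geo _) fun k => bE k t
  have s3 : Summable fun k => E (k + 1) t := (summable_nat_add_iff 1).2 s2
  rw [Pi.add_apply, (s1.mul_right _).tsum_sub (s3.sub s2), s3.tsum_sub s2, s2.tsum_eq_zero_add,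
    s1.tsum_mul_right, eq t ht, add_mul, one_mul]
  abel

theorem srh : SRH := fun ι _ R =>
  haveI : FiniteDimensional ℝ (EV ι) := Module.Finite.trans ℂ _
  @rh_gen (EV ι) _ _ _ _ ⟨fun _ _ _ => rfl⟩
    ⟨fun c f g => ContinuousLinearMap.ext fun v => (f.map_smul c (g v)).symm⟩ _ R

end

end Pool.Agent.MP_fcd29e_an.H58
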